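import Pool.Agent.helper62.VD.SpecE

/-! # Row vde:ESP (MP_07c750_an): separated sets -/

set_option autoImplicit false

open MeasureTheory Filter Set Topology

namespace Pool.Agent.VDE

/-- the separation property -/
def ESP_sep (Γ : Type) {S : Type} [Group Γ] [MulAction Γ S] (d : S → S → ℝ) (f : ℝ → S → S) (T ε : ℝ) (E : Set S) : Prop :=
  ∀ x ∈ E, ∀ x' ∈ E, x ≠ x' → ∀ γ : Γ, ∃ s ∈ Icc (0 : ℝ) T, ε < d (f s x) (γ • f s x')

theorem ESP_max (Γ : Type) {S : Type} [Group Γ] [MulAction Γ S] (d : S → S → ℝ) (f : ℝ → S → S) (T ε : ℝ) (A : Set S) :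
    ∃ E : Set S, Maximal (· ∈ {E : Set S | E ⊆ A ∧ ESP_sep Γ d f T ε E}) E := by
  apply zorn_subset
  intro c hc hch
  refine ⟨⋃₀ c, ⟨sUnion_subset fun s hs => (hc hs).1, ?_⟩, fun s hs => subset_sUnion_of_mem hs⟩
  rintro x ⟨s, hs, hx⟩ x' ⟨s', hs', hx'⟩ hne
  rcases hch.total hs hs' with h | h
  · exact (hc hs').2 x (h hx) x' hx' hne
  · exact (hc hs).2 x hx x' (h hx') hne

theorem ESP_proof (h1 : EUC_stmt) : ESP_stmt := by
  intro Γ S _ _ _ _ _ _ μ F0 K d f hB T ε A hε
  obtain ⟨E, hE⟩ := ESP_max Γ d f T ε A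
  obtain ⟨hEA, hsep⟩ := hE.prop
  obtain ⟨δ, hδ, hd⟩ := (h1 Γ S μ F0 K d f hB).2.1 T (ε / 2) (by positivity)
  refine ⟨E, hEA, ?_, hsep, ?_⟩
  · refine Set.PairwiseDisjoint.countable_of_isOpen (s := fun x => {y | d x y < δ}) ?_ ?_ ?_
    · intro x hx x' hx' hne
      rw [Function.onFun, Set.disjoint_left]
      intro y hy hy'
      obtain ⟨s, hs, hlt⟩ := hsep x hx x' hx' hne 1
      rw [one_smul] at hlt
      have hs' : |s| ≤ T := by
        rw [abs_of_nonneg hs.1]
        exact hs.2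
      have e1 := hd x y (le_of_lt hy) s hs'
      have e2 := hd x' y (le_of_lt hy') s hs'
      have e3 := hB.dt (f s x) (f s y) (f s x')
      have e4 := hB.ds (f s y) (f s x')
      linarith
    · intro x _
      have hc : Continuous (fun y => d x y) := hB.dc.comp (Continuous.prodMk continuous_const continuous_id)
      exact isOpen_lt hc continuous_const
    · intro x _
      exact ⟨x, by
        show d x x < δ
        rw [hB.dz]
        exact hδ⟩
  · intro w hw
    by_contra hcon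
    push Not at hcon
    have hins : insert w E ∈ {E : Set S | E ⊆ A ∧ ESP_sep Γ d f T ε E} := by
      refine ⟨insert_subset hw hEA, ?_⟩
      rintro x (rfl | hx) x' (rfl | hx') hne γ
      · exact absurd rfl hne
      · obtain ⟨s, hs, hlt⟩ := hcon x' hx' γ⁻¹
        refine ⟨s, hs, ?_⟩
        rw [← hB.di γ, smul_inv_smul, hB.ds] at hlt
        exact hlt
      · exact hcon x hx γ
      · exact hsep x hx x' hx' hne γ
    have hwE : w ∈ E := hE.le_of_ge hins (subset_insert w E) (mem_insert w E)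
    obtain ⟨s, hs, hlt⟩ := hcon w hwE 1
    rw [one_smul, hB.dz] at hlt
    exact lt_asymm hlt hε

end Pool.Agent.VDE
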