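import Pool.Agent.helper2.VDE.SGRa

/-! # Row vde:SGR (MP_07c750_an), part 2: Gronwall for two metrics -/

set_option autoImplicit false

open MeasureTheory Filter Set Topology
open scoped ContDiff InnerProductSpace NNReal

namespace Pool.Agent.VDE

open VD

theorem SGR_XHc {d : ℕ} {G : V d → V d →L[ℝ] V d} {Φ : ℝ → P d → P d} (hΦ : IsFlow G Φ) : ContDiff ℝ 1 (XH G) := by
  have h : ∀ p, XH G p = fderiv ℝ (fun q : ℝ × P d => Φ q.1 q.2) (0, p) (1, 0) := by
    intro p
    have h1 := hΦ.deriv 0 p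
    rw [hΦ.zero] at h1
    have h2 : HasDerivAt (fun s : ℝ => ((s, p) : ℝ × P d)) ((1, 0) : ℝ × P d) 0 :=
      (hasDerivAt_id (0 : ℝ)).prodMk (hasDerivAt_const (0 : ℝ) p)
    have h3 : DifferentiableAt ℝ (fun q : ℝ × P d => Φ q.1 q.2) (0, p) := (hΦ.smooth.differentiable (by simp)) _
    have h4 : HasDerivAt (fun s : ℝ => Φ s p) (fderiv ℝ (fun q : ℝ × P d => Φ q.1 q.2) (0, p) (1, 0)) 0 :=
      h3.hasFDerivAt.comp_hasDerivAt (f := fun s : ℝ => ((s, p) : ℝ × P d)) (0 : ℝ) h2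
    exact h1.unique h4
  rw [show XH G = fun p => fderiv ℝ (fun q : ℝ × P d => Φ q.1 q.2) (0, p) (1, 0) from funext h]
  have h5 : ContDiff ℝ 1 (fun q => fderiv ℝ (fun q : ℝ × P d => Φ q.1 q.2) q) :=
    (hΦ.smooth.of_le (WithTop.coe_le_coe.2 (le_top : (2 : ℕ∞) ≤ ⊤))).fderiv_right (m := 1) (by norm_num)
  have h6 : ContDiff ℝ 1 (fun p : P d => ((0, p) : ℝ × P d)) := contDiff_const.prodMk contDiff_id
  exact (h5.comp h6).clm_apply contDiff_const

theorem SGR_proof : SGR_stmt := by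
  intro d G Φ L T η hG hΦ hL hη
  have hΦc : Continuous (fun q : ℝ × P d => Φ q.1 q.2) := hΦ.smooth.continuous
  have htube : IsCompact ((fun q : ℝ × P d => Φ q.1 q.2) '' (Icc (-T) T ×ˢ L)) := (isCompact_Icc.prod hL).image hΦc
  obtain ⟨R, hR⟩ := htube.isBounded.exists_norm_le
  have hXH : ContDiff ℝ 1 (XH G) := SGR_XHc hΦ
  have hSc : IsCompact (Metric.closedBall (0 : P d) (R + 1)) := isCompact_closedBall _ _
  obtain ⟨C, hC⟩ := hSc.exists_bound_of_continuousOn (f := fderiv ℝ (XH G)) (hXH.continuous_fderiv (by simp)).continuousOn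
  obtain ⟨K, hK1, hKC⟩ : ∃ K : ℝ≥0, 1 ≤ K ∧ C ≤ K := by
    refine ⟨Real.toNNReal (max C 1), ?_, ?_⟩
    · rw [← Real.toNNReal_one]
      exact Real.toNNReal_le_toNNReal (le_max_right _ _)
    · exact (le_max_left _ _).trans (Real.le_coe_toNNReal _)
  have hLip : LipschitzOnWith K (XH G) (Metric.closedBall (0 : P d) (R + 1)) :=
    (convex_closedBall _ _).lipschitzOnWith_of_nnnorm_fderiv_le (fun x _ => (hXH.differentiable (by simp)) x) (fun x hx => by
      rw [← NNReal.coe_le_coe, coe_nnnorm]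
      exact (hC x hx).trans hKC)
  have hη1 : 0 < min η 1 := lt_min hη one_pos
  obtain ⟨ε, hε, hεT⟩ : ∃ ε : ℝ, 0 < ε ∧ 2 * ε * Real.exp (K * T) < min η 1 := by
    refine ⟨min η 1 / 4 / Real.exp (K * T), by positivity, ?_⟩
    have h1 : 2 * (min η 1 / 4 / Real.exp (K * T)) * Real.exp (K * T) = min η 1 / 2 := by
      field_simp
      ring
    rw [h1]
    linarith
  have hGd : Continuous (fderiv ℝ G) := hG.smooth.continuous_fderiv (by simp)
  have hK0 : IsCompact ((fun q : P d => ((G q.1, fderiv ℝ G q.1, q.2) : (V d →L[ℝ] V d) × (V d →L[ℝ] V d →L[ℝ] V d) × V d)) ''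
      Metric.closedBall (0 : P d) (R + 1)) :=
    hSc.image ((hG.smooth.continuous.comp continuous_fst).prodMk ((hGd.comp continuous_fst).prodMk continuous_snd))
  have hu := hK0.uniformContinuousAt_of_continuousAt (SGR_A (d := d)) (by
    rintro _ ⟨q, _, rfl⟩
    obtain ⟨e, he⟩ := SGR_equiv hG q.1
    exact SGR_Ac _ e he _ _) (Metric.dist_mem_uniformity hε)
  obtain ⟨δ, hδ, hδ2⟩ := (Metric.mem_uniformity_dist (α := (V d →L[ℝ] V d) × (V d →L[ℝ] V d →L[ℝ] V d) × V d)).1 hu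
  obtain ⟨m, hm⟩ := exists_nat_ge (R + 1)
  refine ⟨m, min (δ / 2) ε, lt_min (by positivity) hε, ?_⟩
  intro G' Φ' hG' hΦ' hclose p hp p' hp' t ht
  have hfield : ∀ q ∈ Metric.closedBall (0 : P d) (R + 1), ‖XH G' q - XH G q‖ ≤ ε := by
    intro q hq
    have hqn : ‖q.1‖ ≤ m := (norm_fst_le q).trans ((mem_closedBall_zero_iff.1 hq).trans hm)
    have c0 : ‖G q.1 - G' q.1‖ ≤ δ / 2 := by
      have h1 := hclose 0 q.1 (by norm_num) hqn
      rw [norm_iteratedFDeriv_zero] at h1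
      exact h1.trans (min_le_left _ _)
    have c1 : ‖fderiv ℝ G q.1 - fderiv ℝ G' q.1‖ ≤ δ / 2 := by
      have h1 := hclose 1 q.1 le_rfl hqn
      rw [norm_iteratedFDeriv_one, fderiv_fun_sub ((hG.smooth.differentiable (by simp)) _)
        ((hG'.smooth.differentiable (by simp)) _)] at h1
      exact h1.trans (min_le_left _ _)
    have hd : dist ((G q.1, fderiv ℝ G q.1, q.2) : (V d →L[ℝ] V d) × (V d →L[ℝ] V d →L[ℝ] V d) × V d)
        (G' q.1, fderiv ℝ G' q.1, q.2) < δ := by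
      rw [Prod.dist_eq, Prod.dist_eq]
      refine max_lt ?_ (max_lt ?_ ?_)
      · change dist (G q.1) (G' q.1) < δ
        rw [dist_eq_norm]
        exact c0.trans_lt (by linarith)
      · have hdn : dist (fderiv ℝ G q.1) (fderiv ℝ G' q.1) = ‖fderiv ℝ G q.1 - fderiv ℝ G' q.1‖ :=
          dist_eq_norm (fderiv ℝ G q.1) (fderiv ℝ G' q.1)
        exact lt_of_eq_of_lt hdn (c1.trans_lt (by linarith))
      · change dist q.2 q.2 < δ
        rw [dist_self]
        exact hδ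
    have h2 := hδ2 hd ⟨q, hq, rfl⟩
    rw [SGR_XH hG', SGR_XH hG, ← dist_eq_norm, dist_comm]
    exact le_of_lt h2
  have hS : ∀ u : ℝ, |u| ≤ T → ∀ y, ‖y - Φ u p‖ ≤ 1 → y ∈ Metric.closedBall (0 : P d) (R + 1) := by
    intro u hu y hy
    rw [mem_closedBall_zero_iff]
    have h1 := hR (Φ u p) ⟨(u, p), ⟨abs_le.1 hu, hp⟩, rfl⟩
    have h2 := norm_le_norm_add_norm_sub' y (Φ u p)
    linarith
  have h0 : ‖p' - p‖ ≤ ε := hp'.trans (min_le_right _ _)
  rcases le_total 0 t with h | h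
  · refine (SGR_core (XH G) (fun u => Φ' u p') (fun u => Φ u p) (fun u => XH G' (Φ' u p')) _ K T ε (min η 1) hK1
      (min_le_right _ _) hε.le hεT hLip (fun u => hΦ'.deriv u p') (fun u => hΦ.deriv u p)
      (fun u hu y hy => hS u (by rw [abs_of_nonneg hu.1]; exact hu.2) y hy)
      (fun u _ hu => hfield _ hu) (by rw [hΦ'.zero, hΦ.zero]; exact h0) t ⟨h, (le_abs_self t).trans ht⟩).trans (min_le_left _ _)
  · have hneg : LipschitzOnWith K (fun q => -XH G q) (Metric.closedBall (0 : P d) (R + 1)) := by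
      intro x hx y hy
      rw [edist_neg_neg]
      exact hLip hx hy
    have hd1 : ∀ u : ℝ, HasDerivAt (fun u => Φ (-u) p) (-XH G (Φ (-u) p)) u := by
      intro u
      have h1 := (hΦ.deriv (-u) p).scomp u (hasDerivAt_neg u)
      simpa [Function.comp_def] using h1
    have hd2 : ∀ u : ℝ, HasDerivAt (fun u => Φ' (-u) p') (-XH G' (Φ' (-u) p')) u := by
      intro u
      have h1 := (hΦ'.deriv (-u) p').scomp u (hasDerivAt_neg u)
      simpa [Function.comp_def] using h1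
    have key := SGR_core (fun q => -XH G q) (fun u => Φ' (-u) p') (fun u => Φ (-u) p) (fun u => -XH G' (Φ' (-u) p')) _ K T ε (min η 1) hK1
      (min_le_right _ _) hε.le hεT hneg hd2 hd1
      (fun u hu y hy => hS (-u) (by rw [abs_neg, abs_of_nonneg hu.1]; exact hu.2) y hy)
      (fun u _ hu => by
        have h1 := hfield _ hu
        rw [neg_sub_neg, norm_sub_rev]
        exact h1) (by rw [neg_zero, hΦ'.zero, hΦ.zero]; exact h0) (-t) ⟨by linarith, (neg_le_abs t).trans ht⟩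
    rw [neg_neg] at key
    exact key.trans (min_le_left _ _)

end Pool.Agent.VDE
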