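import Pool.Agent.helper62.VD.SpecE2

/-! # Row vde:SGR (MP_07c750_an), part 1: a formula for the Hamiltonian vector field, a Gronwall estimate -/

set_option autoImplicit false

open MeasureTheory Filter Set Topology
open scoped ENNReal ContDiff InnerProductSpace NNReal

namespace Pool.Agent.VDE

open VD

/-- Gronwall estimate with first exit time -/
theorem SGR_core {E : Type} [NormedAddCommGroup E] [NormedSpace ℝ E] (v : E → E) (f g f' : ℝ → E) (S : Set E) (K : ℝ≥0) (T ε η : ℝ)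
    (hK : 1 ≤ K) (hη1 : η ≤ 1) (hε0 : 0 ≤ ε) (hε : 2 * ε * Real.exp (K * T) < η) (hv : LipschitzOnWith K v S)
    (hf : ∀ t, HasDerivAt f (f' t) t) (hg : ∀ t, HasDerivAt g (v (g t)) t)
    (hS : ∀ t ∈ Icc (0 : ℝ) T, ∀ y, ‖y - g t‖ ≤ 1 → y ∈ S)
    (hfb : ∀ t ∈ Icc (0 : ℝ) T, f t ∈ S → ‖f' t - v (f t)‖ ≤ ε) (h0 : ‖f 0 - g 0‖ ≤ ε) :
    ∀ t ∈ Icc (0 : ℝ) T, ‖f t - g t‖ ≤ η := by
  intro t ht
  by_contra hcon
  push Not at hcon
  have hfc : Continuous f := continuous_iff_continuousAt.2 fun t => (hf t).continuousAt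
  have hgc : Continuous g := continuous_iff_continuousAt.2 fun t => (hg t).continuousAt
  have hc : Continuous (fun u => ‖f u - g u‖) := (hfc.sub hgc).norm
  have hcomp : IsCompact (Icc (0 : ℝ) T ∩ {u | η ≤ ‖f u - g u‖}) :=
    isCompact_Icc.inter_right (isClosed_le continuous_const hc)
  obtain ⟨u0, ⟨hu0, hu0'⟩, hmin⟩ := hcomp.exists_isLeast ⟨t, ht, hcon.le⟩
  have hlt : ∀ u ∈ Ico (0 : ℝ) u0, ‖f u - g u‖ < η := by
    intro u hu
    by_contra h
    exact absurd (hmin ⟨⟨hu.1, hu.2.le.trans hu0.2⟩, not_lt.1 h⟩) (not_le.2 hu.2)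
  have hIcc : ∀ u ∈ Ico (0 : ℝ) u0, u ∈ Icc (0 : ℝ) T := fun u hu => ⟨hu.1, hu.2.le.trans hu0.2⟩
  have hmemf : ∀ u ∈ Ico (0 : ℝ) u0, f u ∈ S := fun u hu => hS u (hIcc u hu) _ ((hlt u hu).le.trans hη1)
  have hmemg : ∀ u ∈ Ico (0 : ℝ) u0, g u ∈ S := fun u hu => hS u (hIcc u hu) _ (by
    rw [sub_self, norm_zero]
    exact zero_le_one)
  have key := dist_le_of_approx_trajectories_ODE_of_mem (v := fun _ => v) (s := fun _ => S) (K := K) (f := f) (g := g)
    (f' := f') (g' := fun t => v (g t)) (a := 0) (b := u0) (εf := ε) (εg := 0) (δ := ε) (fun _ _ => hv)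
    hfc.continuousOn (fun u _ => (hf u).hasDerivWithinAt)
    (fun u hu => by
      rw [dist_eq_norm]
      exact hfb u (hIcc u hu) (hmemf u hu))
    hmemf hgc.continuousOn (fun u _ => (hg u).hasDerivWithinAt) (fun u _ => (dist_self _).le) hmemg
    (by
      rw [dist_eq_norm]
      exact h0) u0 ⟨hu0.1, le_rfl⟩
  have hK0 : (K : ℝ) ≠ 0 := by
    have : (1 : ℝ) ≤ (K : ℝ) := by exact_mod_cast hK
    positivity
  have hK1 : (1 : ℝ) ≤ (K : ℝ) := by exact_mod_cast hK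
  rw [gronwallBound_of_K_ne_0 hK0, dist_eq_norm, add_zero, sub_zero] at key
  have e1 : Real.exp (K * u0) ≤ Real.exp (K * T) := Real.exp_le_exp.2 (mul_le_mul_of_nonneg_left hu0.2 (by positivity))
  have e2 : 1 ≤ Real.exp (K * u0) := Real.one_le_exp (mul_nonneg (by positivity) hu0.1)
  have e3 : ε / K * (Real.exp (K * u0) - 1) ≤ ε * Real.exp (K * u0) := by
    have e4 : ε / K ≤ ε := div_le_self hε0 hK1
    calc ε / K * (Real.exp (K * u0) - 1) ≤ ε * (Real.exp (K * u0) - 1) :=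
          mul_le_mul_of_nonneg_right e4 (by linarith)
      _ ≤ ε * Real.exp (K * u0) := mul_le_mul_of_nonneg_left (by linarith) hε0
  have e5 : ε * Real.exp (K * u0) ≤ ε * Real.exp (K * T) := mul_le_mul_of_nonneg_left e1 hε0
  have hu0'' : η ≤ ‖f u0 - g u0‖ := hu0'
  linarith

variable {d : ℕ}

theorem SGR_equiv {G : V d → V d →L[ℝ] V d} (hG : IsMetric G) (x : V d) :
    ∃ e : V d ≃L[ℝ] V d, (e : V d →L[ℝ] V d) = G x := by
  have hinj : Function.Injective (G x) := by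
    intro a b hab
    by_contra h
    have h1 := hG.pos x (a - b) (sub_ne_zero.2 h)
    rw [map_sub, hab, sub_self, inner_zero_left] at h1
    exact lt_irrefl _ h1
  let l : V d ≃ₗ[ℝ] V d := LinearEquiv.ofInjectiveEndo (G x : V d →ₗ[ℝ] V d) hinj
  exact ⟨l.toContinuousLinearEquiv, ContinuousLinearMap.ext fun v => rfl⟩

/-- `R(D, v)` with `⟪R, w⟫ = ⟪D w v, v⟫` -/
noncomputable def SGR_R (D : V d →L[ℝ] V d →L[ℝ] V d) (v : V d) : V d :=
  ∑ i : Fin d, ⟪D (EuclideanSpace.single i 1) v, v⟫_ℝ • EuclideanSpace.single i 1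

/-- the Hamiltonian vector field as a function of the metric, its derivative, and the covector -/
noncomputable def SGR_A (q : (V d →L[ℝ] V d) × (V d →L[ℝ] V d →L[ℝ] V d) × V d) : P d :=
  (q.1.inverse q.2.2, (1 / 2 : ℝ) • SGR_R q.2.1 (q.1.inverse q.2.2))

theorem SGR_inner (D : V d →L[ℝ] V d →L[ℝ] V d) (v w : V d) : ⟪SGR_R D v, w⟫_ℝ = ⟪D w v, v⟫_ℝ := by
  have hw : w = ∑ i, w i • EuclideanSpace.single i (1 : ℝ) := by
    have h := (EuclideanSpace.basisFun (Fin d) ℝ).sum_repr w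
    simpa using h.symm
  have h1 : D w v = ∑ i, w i • D (EuclideanSpace.single i (1 : ℝ)) v := by
    conv_lhs => rw [hw]
    rw [map_sum, _root_.sum_apply]
    exact Finset.sum_congr rfl fun i _ => by rw [map_smul, _root_.smul_apply]
  rw [SGR_R, sum_inner, h1, sum_inner]
  refine Finset.sum_congr rfl fun i _ => ?_
  rw [real_inner_smul_left, real_inner_smul_left, EuclideanSpace.inner_single_left]
  simp [mul_comm]

theorem SGR_gd {G : V d → V d →L[ℝ] V d} (hG : IsMetric G) (x ξ : V d) :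
    gradient (fun y => Ham G (y, ξ)) x = -((1 / 2 : ℝ) • SGR_R (fderiv ℝ G x) ((G x).inverse ξ)) := by
  obtain ⟨e, he⟩ := SGR_equiv hG x
  have hGd : DifferentiableAt ℝ G x := (hG.smooth.differentiable (by simp)) x
  have hI : DifferentiableAt ℝ (fun y => (G y).inverse) x := by
    have h1 : DifferentiableAt ℝ (ContinuousLinearMap.inverse : (V d →L[ℝ] V d) → (V d →L[ℝ] V d)) (G x) := by
      rw [← he]
      exact (contDiffAt_map_inverse (n := 1) e).differentiableAt (by simp)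
    exact h1.comp x hGd
  have hu : DifferentiableAt ℝ (fun y => (G y).inverse ξ) x := hI.clm_apply (differentiableAt_const ξ)
  have hud := hu.hasFDerivAt
  set u' := fderiv ℝ (fun y => (G y).inverse ξ) x with hu'
  have hid : ∀ y, G y ((G y).inverse ξ) = ξ := by
    intro y
    obtain ⟨e', he'⟩ := SGR_equiv hG y
    rw [← he', ContinuousLinearMap.inverse_equiv]
    exact e'.apply_symm_apply ξ
  have hrel : ∀ w, G x (u' w) + fderiv ℝ G x w ((G x).inverse ξ) = 0 := by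
    intro w
    have h1 := hGd.hasFDerivAt.clm_apply hud
    have h2 : HasFDerivAt (fun y => G y ((G y).inverse ξ)) (0 : V d →L[ℝ] V d) x := by
      rw [show (fun y => G y ((G y).inverse ξ)) = fun _ => ξ from funext hid]
      exact hasFDerivAt_const ξ x
    have h3 := congrArg (fun L : V d →L[ℝ] V d => L w) (h1.unique h2)
    simpa using h3
  have hgrad : HasGradientAt (fun y => Ham G (y, ξ)) (-((1 / 2 : ℝ) • SGR_R (fderiv ℝ G x) ((G x).inverse ξ))) x := by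
    rw [hasGradientAt_iff_hasFDerivAt]
    have h1 : HasFDerivAt (fun y => Ham G (y, ξ)) _ x :=
      ((hud.inner ℝ (hasFDerivAt_const ξ x)).mul_const ((1 : ℝ) / 2)).congr_of_eventuallyEq (Filter.Eventually.of_forall fun y => by
        change ⟪(G y).inverse ξ, ξ⟫_ℝ / 2 = ⟪(G y).inverse ξ, ξ⟫_ℝ * (1 / 2)
        ring)
    refine h1.congr_fderiv ?_
    ext w
    have h2 : ⟪u' w, ξ⟫_ℝ = -⟪fderiv ℝ G x w ((G x).inverse ξ), (G x).inverse ξ⟫_ℝ := by
      conv_lhs => rw [← hid x]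
      rw [← hG.symm, eq_neg_of_add_eq_zero_left (hrel w), inner_neg_left]
    simp only [_root_.smul_apply, ContinuousLinearMap.comp_apply, ContinuousLinearMap.prod_apply,
      fderivInnerCLM_apply, _root_.zero_apply, inner_zero_right, zero_add, smul_eq_mul,
      InnerProductSpace.toDual_apply_apply, inner_neg_left, real_inner_smul_left, SGR_inner]
    rw [h2]
    ring
  exact hgrad.gradient

theorem SGR_XH {G : V d → V d →L[ℝ] V d} (hG : IsMetric G) (q : P d) :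
    XH G q = SGR_A (G q.1, fderiv ℝ G q.1, q.2) := by
  rw [XH, SGR_gd hG, neg_neg]
  rfl

theorem SGR_Rt {α : Type} {l : Filter α} {f : α → (V d →L[ℝ] V d →L[ℝ] V d)} {u : α → V d} {D : V d →L[ℝ] V d →L[ℝ] V d} {v : V d}
    (hf : Tendsto f l (𝓝 D)) (hu : Tendsto u l (𝓝 v)) : Tendsto (fun q => SGR_R (f q) (u q)) l (𝓝 (SGR_R D v)) := by
  refine tendsto_finsetSum _ fun i _ => ?_
  have e1 : Tendsto (fun q => f q (EuclideanSpace.single i 1)) l (𝓝 (D (EuclideanSpace.single i 1))) :=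
    ((ContinuousLinearMap.apply ℝ (V d →L[ℝ] V d) (EuclideanSpace.single i (1 : ℝ))).continuous.tendsto D).comp hf
  have e2 : Tendsto (fun q => f q (EuclideanSpace.single i 1) (u q)) l (𝓝 (D (EuclideanSpace.single i 1) v)) :=
    ((isBoundedBilinearMap_apply (𝕜 := ℝ) (E := V d) (F := V d)).continuous.tendsto (D (EuclideanSpace.single i 1), v)).comp (e1.prodMk_nhds hu)
  exact (e2.inner hu).smul_const _

theorem SGR_Ac (g : V d →L[ℝ] V d) (e : V d ≃L[ℝ] V d) (he : (e : V d →L[ℝ] V d) = g)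
    (D : V d →L[ℝ] V d →L[ℝ] V d) (ξ : V d) : ContinuousAt (SGR_A (d := d)) (g, D, ξ) := by
  have h2 : Tendsto (ContinuousLinearMap.inverse : (V d →L[ℝ] V d) → (V d →L[ℝ] V d)) (𝓝 g) (𝓝 g.inverse) := by
    rw [← he]
    exact (contDiffAt_map_inverse (n := 1) e).continuousAt
  have h3 : Tendsto (fun q : (V d →L[ℝ] V d) × (V d →L[ℝ] V d →L[ℝ] V d) × V d => q.1.inverse) (𝓝 (g, D, ξ)) (𝓝 g.inverse) :=
    h2.comp (continuous_fst.tendsto (g, D, ξ))
  have h6 : Tendsto (fun q : (V d →L[ℝ] V d) × (V d →L[ℝ] V d →L[ℝ] V d) × V d => q.2.2) (𝓝 (g, D, ξ)) (𝓝 ξ) :=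
    (continuous_snd.comp continuous_snd).tendsto (g, D, ξ)
  have h7 : Tendsto (fun q : (V d →L[ℝ] V d) × (V d →L[ℝ] V d →L[ℝ] V d) × V d => q.2.1) (𝓝 (g, D, ξ)) (𝓝 D) :=
    (continuous_fst.comp continuous_snd).tendsto (g, D, ξ)
  have h1 : Tendsto (fun q : (V d →L[ℝ] V d) × (V d →L[ℝ] V d →L[ℝ] V d) × V d => q.1.inverse q.2.2) (𝓝 (g, D, ξ)) (𝓝 (g.inverse ξ)) :=
    ((isBoundedBilinearMap_apply (𝕜 := ℝ) (E := V d) (F := V d)).continuous.tendsto (g.inverse, ξ)).comp (h3.prodMk_nhds h6)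
  have h5 : Tendsto (fun q : (V d →L[ℝ] V d) × (V d →L[ℝ] V d →L[ℝ] V d) × V d => SGR_R q.2.1 (q.1.inverse q.2.2)) (𝓝 (g, D, ξ))
      (𝓝 (SGR_R D (g.inverse ξ))) := SGR_Rt h7 h1
  have h8 : Tendsto (fun q : (V d →L[ℝ] V d) × (V d →L[ℝ] V d →L[ℝ] V d) × V d => (1 / 2 : ℝ) • SGR_R q.2.1 (q.1.inverse q.2.2)) (𝓝 (g, D, ξ))
      (𝓝 ((1 / 2 : ℝ) • SGR_R D (g.inverse ξ))) := h5.const_smul (1 / 2 : ℝ)
  exact h1.prodMk_nhds h8

end Pool.Agent.VDE
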